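import Pool.Agent.Helper28.VC.Proof

/-!
# The class `VC` is closed under overgroups of finite index

`VC` is the class of groups all of whose cocycle actions on II₁ factors can be perturbed to
genuine actions.  If `Λ` is a subgroup of finite index of `Γ` and `Λ` is in `VC`, so is `Γ`.

Proof.  Let `(α, u)` be a cocycle action of `Γ` on the II₁ factor `N`.  Take matrix units `e`
in `N` indexed by `Γ ⧸ Λ`; after a perturbation every `α g` fixes them (`exists_conj`,
`CocycleAction.perturb`).  Then `(α, u)` restricts to a cocycle action of `Λ` on the relative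
commutant `P = N ∩ {e}'`, again a II₁ factor (`isII1Factor_relComm`), and `Λ ∈ VC` gives
unitaries `s x ∈ P`, `x ∈ Λ`, with `s x * α x (s y) * u x y = s (x * y)` (`exists_splitting`).
They are induced up to `Γ` like a representation: `W g = ∑ q, T g q * e (g • q) q` with
`T g q ∈ P` (`core`).  The comparison theory of projections of a II₁ factor that this needs
(projections of the same trace are equivalent, and there are subprojections of every smaller
trace) is proved in the imported file (`IsII1Factor.alg`).
-/

set_option autoImplicit false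

universe u v

namespace Pool.Agent.Results.MP_07e70b_an.FiniteIndex

/-- If a subgroup `Λ` of finite index of `Γ` belongs to `VC`, then `Γ` belongs to `VC`. -/
theorem result {Γ : Type v} [Group Γ] (Λ : Subgroup Γ) [Λ.FiniteIndex] (h : VC.{u} Λ) :
    VC.{u} Γ := by
  classical
  intro H _ _ _ N hN c
  let _ : Fintype (Γ ⧸ Λ) := Subgroup.fintypeQuotientOfFiniteIndex
  obtain ⟨τ, hτ, hd⟩ := hN.alg.trace
  obtain ⟨e, he⟩ := exists_matrixUnits hτ hd (Γ ⧸ Λ)
  -- perturb so that the matrix units are fixed
  have hv : ∀ g : Γ, ∃ v : unitary (Alg N), (g = 1 → v = 1) ∧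
      ∀ i j, (v : Alg N) * c.aut g (e i j) * star (v : Alg N) = e i j := by
    intro g
    by_cases hg : g = 1
    · subst hg
      refine ⟨1, fun _ => rfl, fun i j => ?_⟩
      rw [c.aut_one]
      simp
    · obtain ⟨v, hv⟩ := exists_conj hτ hd he (c.aut g)
      exact ⟨v, fun h => absurd h hg, hv⟩
  choose v hv1 hv2 using hv
  apply c.untwists_of_perturb v (hv1 1 rfl)
  have hfix : ∀ g q r, (c.perturb v (hv1 1 rfl)).aut g (e q r) = e q r := fun g q r => hv2 g q r
  -- the relative commutant
  let X : Set (H →L[ℂ] H) := {x | ∃ i j, x = (e i j).val}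
  have hX : ∀ x ∈ X, star x ∈ X := by
    rintro x ⟨i, j, rfl⟩
    exact ⟨j, i, by rw [← he.star_eq i j]; rfl⟩
  let P : VonNeumannAlgebra H := relComm N X
  have hPN : P.toStarSubalgebra ≤ N.toStarSubalgebra := by
    intro z hz
    exact ((mem_relComm N X hX z).1 hz).1
  have hc : ∀ b i j, incl hPN b * e i j = e i j * incl hPN b := by
    intro b i j
    apply Alg.val_injective
    exact ((mem_relComm N X hX b.val).1 b.2).2 _ ⟨i, j, rfl⟩
  have hr : ∀ x : Alg N, (∀ i j, x * e i j = e i j * x) → ∃ b, incl hPN b = x := by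
    intro x hx
    refine ⟨⟨x.val, (mem_relComm N X hX x.val).2 ⟨x.2, ?_⟩⟩, rfl⟩
    rintro y ⟨i, j, rfl⟩
    exact congrArg Alg.val (hx i j)
  have hP : IsII1Factor P := isII1Factor_relComm hN hPN he hc hr
  obtain ⟨s, hs, hs'⟩ := exists_splitting Λ (c.perturb v (hv1 1 rfl)) hfix (incl hPN)
    (incl_injective hPN) hc hr (fun cB => h H P hP cB)
  exact core Λ e he _ hfix s hs hs'

end Pool.Agent.Results.MP_07e70b_an.FiniteIndex
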