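import Pool.Agent.Helper28.VC.Ext12

/-!
# The class of groups hereditarily in `VC` is closed under extensions with finite kernel

`VC` is the class of groups all of whose cocycle actions on II₁ factors can be perturbed to
genuine actions.  If `F` is a finite normal subgroup of `Γ` and every subgroup of finite index
of `Γ ⧸ F` is in `VC`, then every subgroup of finite index of `Γ` is in `VC`.

Proof.  A cocycle action of `Γ` on the II₁ factor `N` is the same as an extension `E` of `Γ` by
the unitary group of `N` with an action of `E` on `N` (`Ext`), and it can be perturbed to an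
action if and only if the extension splits.  Passing to the centralizer of `F` (finite index) and
dividing by subgroups of prime order, we may assume that `F` is generated by a central element
`c` of prime order `p` (`vc_of_finite_kernel`, `vc_of_central`).

* If a lift of `c` acts on `N` by an inner automorphism (`Ext.splits_inner`), there is a lift `z`
  of `c` that acts trivially and has `z ^ p = 1`; the elements of `Γ` whose lifts commute with `z`
  form a subgroup of finite index `Λ`, and over `Λ` one divides by `z`, with matrix units indexed
  by `Γ ⧸ Λ` taken out as in the proof for finite index.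
* Otherwise (`Ext.splits_outer`) there is a lift `s` with `s ^ p = 1` that permutes cyclically a
  partition of unity into `p` equivalent projections, and any two such lifts are conjugate by
  unitaries of `N` (`Ext.conj_lifts`).  Hence the centralizer of `s` in `E` maps onto `Γ`; it is an
  extension of `Γ` by the unitary group of the fixed point algebra of `s`, which is a II₁ factor
  (`exists_fixedVN`, `isII1Factor_fixed`), and one divides by `s`.
-/

set_option autoImplicit false

universe u v

namespace Pool.Agent.Results.MP_07e70b_an.FiniteKernel

open Pool.Agent.Results.MP_07e70b_an.FiniteIndex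

/-- If `F` is a finite normal subgroup of `Γ` and every subgroup of finite index of `Γ ⧸ F`
belongs to `VC`, then every subgroup of finite index of `Γ` belongs to `VC`. -/
theorem result {Γ : Type v} [Group Γ] (F : Subgroup Γ) [F.Normal] [Finite F]
    (h : ∀ Δ : Subgroup (Γ ⧸ F), Δ.FiniteIndex → VC.{u} Δ) :
    ∀ Δ : Subgroup Γ, Δ.FiniteIndex → VC.{u} Δ := by
  intro Δ hΔ
  let θ : Δ →* Γ ⧸ F := (QuotientGroup.mk' F).comp Δ.subtype
  have hrange : θ.range.FiniteIndex :=
    range_finiteIndex' _ (QuotientGroup.mk'_surjective F) Δ
  have hmem : ∀ x : θ.ker, ((x : Δ) : Γ) ∈ F := by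
    intro x
    have h1 : (((x : Δ) : Γ) : Γ ⧸ F) = 1 := x.2
    rwa [QuotientGroup.eq_one_iff] at h1
  have hfinK : Finite θ.ker := by
    let ψ : θ.ker → F := fun x => ⟨((x : Δ) : Γ), hmem x⟩
    refine Finite.of_injective ψ fun x y hxy => ?_
    exact Subtype.ext (Subtype.ext (congrArg (fun t : F => (t : Γ)) hxy))
  have hΓ : HVC.{u} (Γ ⧸ F) := h
  exact vc_of_finite_kernel θ.ker (hΓ.quot_of_hom θ hrange θ.ker rfl)

end Pool.Agent.Results.MP_07e70b_an.FiniteKernel
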